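import Pool.Agent.R615.K1.PT
import Pool.Agent.R793.MagLI

/-!
The class of the groups on which all independent natural families are injective, for `K₁(R[-])`.
-/

namespace Pool.Agent.R615.KU

open CategoryTheory Pool.Agent.Y483 Pool.Agent.Y477.IW Pool.Agent.Y75.MQ Pool.Agent.R615.K1

/-- For every group `T` and every family of natural transformations
`α_{j,i} : H_j(-; ℚ) → ℚ ⊗ K₁(R[- × T])`, `i ∈ I_j`, linearly independent on `ℤ^j` for each `j`, the
sum of all the `α_{j,i}` is injective on `G`. -/
def DetK (R : Type) [Ring R] (G : Type) [Group G] : Prop :=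
  ∀ (T : Type) [Group T] (I : ℕ → Type) (α : ∀ j : ℕ, I j → (hq j ⟶ timesF T ⋙ rat (kgr R))),
    (∀ j, LinearIndependent ℚ fun i : I j => ((α j i).app (zn j)).hom) →
      kerFam (fun p : Σ j, I j => α p.1 p.2) (GrpCat.of G) = ⊥

end Pool.Agent.R615.KU
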