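import Pool.Agent.R615.K1.PT
import Pool.Agent.Y75.MQ.Prod

/-!
Transfers along pairs from the general property `HasPT`.
-/

namespace Pool.Agent.R615.KU

open Pool.Agent.Y483 Pool.Agent.Y110.KW Pool.Agent.Y75.MQ Pool.Agent.Y483.PW CategoryTheory

theorem hasPairTransfers_of_PT {E : GrpCat.{0} ⥤ ModuleCat.{0} ℚ} (hE : HasPT E) :
    HasPairTransfers E := by
  intro G A K _ _ κ
  obtain ⟨Φ, hΦ⟩ := hE G A K κ
  refine ⟨Φ, ?_⟩
  intro G₀ _ j hj Y hY x
  exact hΦ G₀ j Y (fun a => labelC κ j hj a) (fun a => labelD κ j hj a)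
    (fun a _ g => ⟨hj g a, rfl, rfl⟩) hY x

end Pool.Agent.R615.KU
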